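import Pool.Agent.H46.VIO.Stmts
import Pool.Agent.H45.SHA.LOW

/-!
# VIO, module FIV: the final statement
-/

set_option autoImplicit false

namespace Pool.VIO

open Finset Pool.Agent.H98.ABCR Pool.SHA Pool.ABY

namespace H22V

lemma nn_pos {v : ℕ × ℕ} (hv : IsTri v) : 0 < nn v := by
  obtain ⟨h1, h2, h3⟩ := hv
  unfold nn
  positivity

lemma dvd_nn (v : ℕ × ℕ) (s : Fin 3) : coord v s ∣ nn v := by
  unfold nn
  fin_cases s
  · exact ⟨v.2 * (v.1 + v.2), by show _ = v.1 * _; ring⟩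
  · exact ⟨v.1 * (v.1 + v.2), by show _ = v.2 * _; ring⟩
  · exact ⟨v.1 * v.2, by show _ = (v.1 + v.2) * _; ring⟩

lemma prod_le_RR (v : ℕ × ℕ) (K : Finset ℕ) (hK : K ⊆ (nn v).primeFactors) :
    (∏ q ∈ K, q) ≤ RR v := by
  unfold RR rad
  exact Finset.prod_le_prod_of_subset_of_one_le' hK
    (f := fun q => q) (fun p hp _ => (Nat.prime_of_mem_primeFactors hp).one_lt.le)

lemma rad_coord_le {v : ℕ × ℕ} (hv : IsTri v) (s : Fin 3) : rad (coord v s) ≤ RR v :=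
  prod_le_RR v _ (Nat.primeFactors_mono (dvd_nn v s) (nn_pos hv).ne')

lemma RR_pos (v : ℕ × ℕ) : 0 < RR v := by
  unfold RR rad
  exact Finset.prod_pos fun p hp => (Nat.prime_of_mem_primeFactors hp).pos

lemma two_le_RR {v : ℕ × ℕ} (hv : IsTri v) : 2 ≤ RR v := by
  have h1 := nn_pos hv
  have h2 : nn v ≠ 1 := by
    obtain ⟨ha, hb, -⟩ := hv
    unfold nn
    intro h
    have h3 := Nat.eq_one_of_mul_eq_one_left h
    omega
  obtain ⟨p, hp, hpd⟩ := Nat.exists_prime_and_dvd h2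
  have h3 : p ∣ RR v := by
    unfold RR rad
    exact Finset.dvd_prod_of_mem (fun q => q) (Nat.mem_primeFactors.2 ⟨hp, hpd, h1.ne'⟩)
  exact hp.two_le.trans (Nat.le_of_dvd (RR_pos v) h3)

/-- a set all of whose finite subsets have at most `B` elements -/
lemma finite_of_bound (S : Set (ℕ × ℕ)) (B : ℝ)
    (h : ∀ F : Finset (ℕ × ℕ), (F : Set (ℕ × ℕ)) ⊆ S → (F.card : ℝ) ≤ B) :
    S.Finite ∧ (S.ncard : ℝ) ≤ B := by
  have hfin : S.Finite := by
    by_contra hinf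
    obtain ⟨F, hF, hc⟩ :=
      Set.Infinite.exists_subset_card_eq (Set.not_finite.mp hinf : S.Infinite) (⌊B⌋₊ + 1)
    have h1 := h F hF
    rw [hc] at h1
    have h2 := Nat.lt_floor_add_one B
    push_cast at h1
    linarith
  refine ⟨hfin, ?_⟩
  have h1 := h hfin.toFinset (by rw [Set.Finite.coe_toFinset])
  rwa [← Set.ncard_eq_toFinset_card _ hfin] at h1

/-- dyadic summation over the radical -/
lemma exc_bound (κ' c1 C1 : ℝ) (hc1 : 0 < c1) (hc13 : c1 ≤ 1 / 3) (hC1 : 1 ≤ C1) (hκ : 1 ≤ κ')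
    (h : ∀ (X : ℝ) (F : Finset (ℕ × ℕ)), 1 ≤ X →
      (∀ v ∈ F, IsTri v ∧ (RR v : ℝ) ≤ X ∧ κ' * Real.log X ≤ hh v) →
      (F.card : ℝ) ≤ C1 * X ^ (2 / 3 - c1)) :
    ∃ C : ℝ, 0 ≤ C ∧ ∀ (X : ℝ) (F : Finset (ℕ × ℕ)), 2 ≤ X →
      (∀ v ∈ F, IsTri v ∧ (RR v : ℝ) ≤ X ∧ (RR v : ℝ) ^ (2 * κ') < ((v.1 + v.2 : ℕ) : ℝ)) →
      (F.card : ℝ) ≤ C * X ^ (2 / 3 - c1 / 2) := by
  classical
  refine ⟨(2 / (c1 / 2) + 1) * (2 * C1), by positivity, ?_⟩
  intro X F hX hF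
  have hX0 : 0 < X := by linarith
  have hX1 : 1 ≤ X := by linarith
  -- classes
  have hcard : F.card = ∑ j ∈ Finset.range (Nat.log 2 ⌊X⌋₊ + 1),
      (F.filter (fun v => Nat.log 2 (RR v) = j)).card := by
    apply Finset.card_eq_sum_card_fiberwise
    intro v hv
    rw [Finset.mem_coe, Finset.mem_range, Nat.lt_succ_iff]
    exact Nat.log_mono_right (Nat.le_floor (hF v hv).2.1)
  have hfib : ∀ j ∈ Finset.range (Nat.log 2 ⌊X⌋₊ + 1),
      ((F.filter (fun v => Nat.log 2 (RR v) = j)).card : ℝ) ≤ 2 * C1 * X ^ (2 / 3 - c1) := by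
    intro j hj
    rw [Finset.mem_range, Nat.lt_succ_iff] at hj
    have h1 := h ((2 : ℝ) ^ (j + 1)) (F.filter (fun v => Nat.log 2 (RR v) = j))
      (one_le_pow₀ (by norm_num)) (by
        intro v hv
        rw [Finset.mem_filter] at hv
        obtain ⟨hvF, hvj⟩ := hv
        obtain ⟨ht, hR, hc⟩ := hF v hvF
        have h2 := two_le_RR ht
        have h3 : RR v < 2 ^ (j + 1) := by
          rw [← hvj]; exact Nat.lt_pow_succ_log_self (by norm_num) _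
        have h4 : 2 ^ j ≤ RR v := by
          rw [← hvj]; exact Nat.pow_log_le_self 2 (by omega)
        refine ⟨ht, by exact_mod_cast h3.le, ?_⟩
        have h5 : (2 : ℝ) ^ (j + 1) ≤ (RR v : ℝ) ^ 2 := by
          have h6 : 2 ^ (j + 1) ≤ RR v ^ 2 := by
            rw [pow_succ, sq]
            exact Nat.mul_le_mul h4 h2
          exact_mod_cast h6
        have hR0 : (0 : ℝ) < RR v := by exact_mod_cast RR_pos v
        have h7 : Real.log ((2 : ℝ) ^ (j + 1)) ≤ 2 * Real.log (RR v) := by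
          have h8 := Real.log_le_log (by positivity) h5
          rwa [Real.log_pow (n := 2), Nat.cast_ofNat] at h8
        have h9 : 2 * κ' * Real.log (RR v) < hh v := by
          unfold hh
          rw [← Real.log_rpow hR0]
          exact Real.log_lt_log (by positivity) hc
        calc κ' * Real.log ((2 : ℝ) ^ (j + 1)) ≤ κ' * (2 * Real.log (RR v)) :=
              mul_le_mul_of_nonneg_left h7 (by linarith)
          _ = 2 * κ' * Real.log (RR v) := by ring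
          _ ≤ hh v := h9.le)
    refine h1.trans ?_
    have h2 : (2 : ℝ) ^ (j + 1) ≤ 2 * X := by
      have h3 : 2 ^ j ≤ ⌊X⌋₊ := by
        refine le_trans (Nat.pow_le_pow_right (by norm_num) hj) (Nat.pow_log_le_self 2 ?_)
        have : 1 ≤ ⌊X⌋₊ := Nat.le_floor (by exact_mod_cast hX1)
        omega
      have h4 : ((2 : ℝ)) ^ j ≤ X := le_trans (by exact_mod_cast h3) (Nat.floor_le hX0.le)
      rw [pow_succ]; linarith
    have h3 : ((2 : ℝ) ^ (j + 1)) ^ (2 / 3 - c1) ≤ (2 * X) ^ (2 / 3 - c1) :=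
      Real.rpow_le_rpow (by positivity) h2 (by linarith)
    have h4 : (2 * X) ^ (2 / 3 - c1) ≤ 2 * X ^ (2 / 3 - c1) := by
      rw [Real.mul_rpow (by norm_num) hX0.le]
      have h5 : (2 : ℝ) ^ (2 / 3 - c1) ≤ 2 := by
        calc (2 : ℝ) ^ (2 / 3 - c1) ≤ (2 : ℝ) ^ (1 : ℝ) :=
              Real.rpow_le_rpow_of_exponent_le (by norm_num) (by linarith)
          _ = 2 := Real.rpow_one _
      exact mul_le_mul_of_nonneg_right h5 (by positivity)
    calc C1 * ((2 : ℝ) ^ (j + 1)) ^ (2 / 3 - c1) ≤ C1 * (2 * X ^ (2 / 3 - c1)) :=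
          mul_le_mul_of_nonneg_left (h3.trans h4) (by linarith)
      _ = 2 * C1 * X ^ (2 / 3 - c1) := by ring
  have hlog : ((Nat.log 2 ⌊X⌋₊ + 1 : ℕ) : ℝ) ≤ (2 / (c1 / 2) + 1) * X ^ (c1 / 2) := by
    have h0 : ⌊X⌋₊ ≠ 0 := by
      have : 1 ≤ ⌊X⌋₊ := Nat.le_floor (by exact_mod_cast hX1)
      omega
    have h1 : ((2 : ℝ)) ^ (Nat.log 2 ⌊X⌋₊) ≤ X := by
      have h2 := Nat.pow_log_le_self 2 h0
      exact le_trans (by exact_mod_cast h2) (Nat.floor_le hX0.le)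
    have h2 : (Nat.log 2 ⌊X⌋₊ : ℝ) * Real.log 2 ≤ Real.log X := by
      rw [← Real.log_pow]
      exact Real.log_le_log (by positivity) h1
    have h3 : Real.log X ≤ X ^ (c1 / 2) / (c1 / 2) := Real.log_le_rpow_div hX0.le (by positivity)
    have h4 : (1 : ℝ) / 2 ≤ Real.log 2 := by
      have := Real.log_two_gt_d9
      linarith
    have h5 : (Nat.log 2 ⌊X⌋₊ : ℝ) ≤ 2 * Real.log X := by
      have h6 : (0 : ℝ) ≤ (Nat.log 2 ⌊X⌋₊ : ℝ) := Nat.cast_nonneg _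
      nlinarith
    have h6 : 1 ≤ X ^ (c1 / 2) := Real.one_le_rpow hX1 (by positivity)
    push_cast
    calc (Nat.log 2 ⌊X⌋₊ : ℝ) + 1 ≤ 2 * (X ^ (c1 / 2) / (c1 / 2)) + X ^ (c1 / 2) := by linarith
      _ = (2 / (c1 / 2) + 1) * X ^ (c1 / 2) := by ring
  rw [hcard, Nat.cast_sum]
  calc ∑ j ∈ Finset.range (Nat.log 2 ⌊X⌋₊ + 1),
        ((F.filter (fun v => Nat.log 2 (RR v) = j)).card : ℝ)
      ≤ ∑ _j ∈ Finset.range (Nat.log 2 ⌊X⌋₊ + 1), 2 * C1 * X ^ (2 / 3 - c1) :=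
        Finset.sum_le_sum hfib
    _ = ((Nat.log 2 ⌊X⌋₊ + 1 : ℕ) : ℝ) * (2 * C1 * X ^ (2 / 3 - c1)) := by
        rw [Finset.sum_const, nsmul_eq_mul, Finset.card_range]
    _ ≤ ((2 / (c1 / 2) + 1) * X ^ (c1 / 2)) * (2 * C1 * X ^ (2 / 3 - c1)) :=
        mul_le_mul_of_nonneg_right hlog (by positivity)
    _ = (2 / (c1 / 2) + 1) * (2 * C1) * (X ^ (c1 / 2) * X ^ (2 / 3 - c1)) := by ring
    _ = (2 / (c1 / 2) + 1) * (2 * C1) * X ^ (2 / 3 - c1 / 2) := by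
        rw [← Real.rpow_add hX0]; ring_nf

end H22V

open H22V

theorem fiv_thm (hM : S_MAV) (hA : S_ALL) : S_FIV := by
  classical
  obtain ⟨c1, C1, κ', hc1, hC1, hκ', h⟩ := hM
  obtain ⟨CA, hCA, hAll⟩ := hA 1 one_pos
  have hm : 0 < min c1 (1 / 3) := lt_min hc1 (by norm_num)
  obtain ⟨C, hC, hE⟩ := exc_bound κ' (min c1 (1 / 3)) C1 hm (min_le_right _ _) hC1 hκ' (by
    intro X F hX hF
    refine (h X F hX hF).trans ?_
    refine mul_le_mul_of_nonneg_left ?_ (by linarith)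
    exact Real.rpow_le_rpow_of_exponent_le hX (by linarith [min_le_left c1 (1 / 3)]))
  refine ⟨min c1 (1 / 3) / 2, 32 * C, 2 * κ', by positivity, fun X hX => ?_⟩
  have hX0 : 0 < X := by linarith
  have hfin : (Tri X).Finite := (finite_of_bound (Tri X) (CA * X ^ (1 : ℝ) * Real.sqrt (X * X))
    (fun F hF => hAll X X F (by linarith) (by linarith) (fun v hv => by
      obtain ⟨h1, h2, h3, h4⟩ := hF hv
      have ht : IsTri v := ⟨h1, h2, h3⟩
      have h5 : (RR v : ℝ) ≤ X := h4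
      refine ⟨ht, h5, 0, ?_⟩
      have h6 : (rad (coord v 0) : ℝ) ≤ RR v := by exact_mod_cast rad_coord_le ht 0
      exact h6.trans h5))).1
  have hlow : X ^ (2 / 3 : ℝ) / 32 ≤ ((Tri X).ncard : ℝ) := by
    have h1 : {t : ℕ × ℕ | 0 < t.1 ∧ 0 < t.2 ∧ Nat.Coprime t.1 t.2 ∧
        ((∏ p ∈ (t.1 * t.2 * (t.1 + t.2)).primeFactors, p : ℕ) : ℝ) ≤ X ∧
        Real.log ((t.1 + t.2 : ℕ) : ℝ) ≤ Real.log X} ⊆ Tri X := by
      rintro t ⟨h1, h2, h3, h4, -⟩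
      exact ⟨h1, h2, h3, h4⟩
    have h2 := low X (Real.log X) hX le_rfl (hfin.subset h1)
    refine h2.trans ?_
    exact_mod_cast Set.ncard_le_ncard h1 hfin
  have hexc : ((Exc (2 * κ') X).ncard : ℝ) ≤ C * X ^ (2 / 3 - min c1 (1 / 3) / 2) :=
    (finite_of_bound (Exc (2 * κ') X) _ (fun F hF => hE X F hX (fun v hv => by
      obtain ⟨⟨h1, h2, h3, h4⟩, h5⟩ := hF hv
      exact ⟨⟨h1, h2, h3⟩, h4, h5⟩))).2
  have hpos : 0 ≤ X ^ (2 / 3 - min c1 (1 / 3) / 2) := by positivity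
  refine ⟨hfin, hlow, ?_, ?_⟩
  · refine hexc.trans ?_
    nlinarith [mul_nonneg hC hpos]
  · refine hexc.trans ?_
    have e : X ^ (2 / 3 - min c1 (1 / 3) / 2) =
        X ^ (-(min c1 (1 / 3) / 2)) * X ^ (2 / 3 : ℝ) := by
      rw [← Real.rpow_add hX0]; ring_nf
    rw [e]
    have h1 : 0 ≤ X ^ (-(min c1 (1 / 3) / 2)) := by positivity
    have h2 : X ^ (2 / 3 : ℝ) ≤ 32 * ((Tri X).ncard : ℝ) := by linarith
    calc C * (X ^ (-(min c1 (1 / 3) / 2)) * X ^ (2 / 3 : ℝ))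
        ≤ C * (X ^ (-(min c1 (1 / 3) / 2)) * (32 * ((Tri X).ncard : ℝ))) :=
          mul_le_mul_of_nonneg_left (mul_le_mul_of_nonneg_left h2 h1) hC
      _ = 32 * C * X ^ (-(min c1 (1 / 3) / 2)) * ((Tri X).ncard : ℝ) := by ring

end Pool.VIO
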