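import Pool.Agent.H22.VIO.FIV

/-!
# VIO, module DYV: triples in one range of heights
-/

set_option autoImplicit false

namespace Pool.VIO

open Finset Pool.Agent.H98.ABCR Pool.SHA Pool.ABY

namespace H22V

/-- a bounded number of primes costs little -/
lemma pow_card_le (Cg ε : ℝ) (hC : 1 ≤ Cg) (hε : 0 < ε) : ∃ D : ℝ, 1 ≤ D ∧
    ∀ K : Finset ℕ, (∀ q ∈ K, q.Prime) → Cg ^ K.card ≤ D * ((∏ q ∈ K, q : ℕ) : ℝ) ^ ε := by
  classical
  refine ⟨Cg ^ (⌈Cg ^ (1 / ε)⌉₊ + 1), one_le_pow₀ hC, ?_⟩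
  intro K hK
  obtain ⟨Y, hY⟩ : ∃ Y : ℕ, Y = ⌈Cg ^ (1 / ε)⌉₊ := ⟨_, rfl⟩
  rw [← hY]
  have h1 : Cg ^ K.card ≤ ∏ q ∈ K, ((if q ≤ Y then Cg else 1) * ((q : ℝ) ^ ε)) := by
    rw [← Finset.prod_const]
    apply Finset.prod_le_prod (fun _ _ => by linarith)
    intro q hq
    have hq1 : (1 : ℝ) ≤ q := by exact_mod_cast (hK q hq).one_lt.le
    have hqe : 1 ≤ (q : ℝ) ^ ε := Real.one_le_rpow hq1 hε.le
    split_ifs with h
    · nlinarith
    · rw [one_mul]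
      have h2 : Cg ^ (1 / ε) ≤ q := by
        have h3 : Cg ^ (1 / ε) ≤ (Y : ℝ) := by rw [hY]; exact Nat.le_ceil _
        have h4 : (Y : ℝ) ≤ q := by exact_mod_cast (not_le.1 h).le
        linarith
      calc Cg = (Cg ^ (1 / ε)) ^ ε := by
            rw [← Real.rpow_mul (by linarith), one_div, inv_mul_cancel₀ hε.ne', Real.rpow_one]
        _ ≤ (q : ℝ) ^ ε := Real.rpow_le_rpow (by positivity) h2 hε.le
  refine h1.trans ?_
  rw [Finset.prod_mul_distrib]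
  have h2 : ∏ q ∈ K, (if q ≤ Y then Cg else 1) ≤ Cg ^ (Y + 1) := by
    rw [← Finset.prod_filter, Finset.prod_const]
    apply pow_le_pow_right₀ hC
    calc (K.filter (fun q => q ≤ Y)).card ≤ (Finset.range (Y + 1)).card := by
          apply Finset.card_le_card
          intro q hq
          rw [Finset.mem_filter] at hq
          rw [Finset.mem_range]; omega
      _ = Y + 1 := Finset.card_range _
  have h3 : ∏ q ∈ K, ((q : ℝ) ^ ε) = ((∏ q ∈ K, q : ℕ) : ℝ) ^ ε := by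
    rw [Nat.cast_prod, Real.finsetProd_rpow]
    intro q _; positivity
  rw [h3]
  exact mul_le_mul_of_nonneg_right h2 (by positivity)

lemma prod_prime_pos (K : Finset ℕ) (hK : ∀ q ∈ K, q.Prime) : 0 < ∏ q ∈ K, q :=
  Finset.prod_pos fun q hq => (hK q hq).pos

lemma prod_inj (S : Finset (Finset ℕ)) (hS : ∀ K ∈ S, ∀ q ∈ K, q.Prime) :
    Set.InjOn (fun K : Finset ℕ => ∏ q ∈ K, q) (S : Set (Finset ℕ)) := by
  intro K1 h1 K2 h2 h12
  have e1 := Nat.primeFactors_prod (hS K1 (Finset.mem_coe.1 h1))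
  have e2 := Nat.primeFactors_prod (hS K2 (Finset.mem_coe.1 h2))
  simp only at h12
  rw [← e1, ← e2, h12]

lemma maps_Icc (S : Finset (Finset ℕ)) (hS : ∀ K ∈ S, ∀ q ∈ K, q.Prime) (Z : ℝ)
    (hp : ∀ K ∈ S, ((∏ q ∈ K, q : ℕ) : ℝ) ≤ Z) :
    ∀ K ∈ S, (∏ q ∈ K, q) ∈ Icc 1 ⌊Z⌋₊ := by
  intro K hK
  rw [Finset.mem_Icc]
  exact ⟨prod_prime_pos K (hS K hK), Nat.le_floor (hp K hK)⟩

lemma card_sets (S : Finset (Finset ℕ)) (hS : ∀ K ∈ S, ∀ q ∈ K, q.Prime) (Z : ℝ) (hZ : 0 ≤ Z)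
    (hp : ∀ K ∈ S, ((∏ q ∈ K, q : ℕ) : ℝ) ≤ Z) : (S.card : ℝ) ≤ Z := by
  have h1 : S.card ≤ (Icc 1 ⌊Z⌋₊).card :=
    Finset.card_le_card_of_injOn (fun K => ∏ q ∈ K, q)
      (fun K hK => Finset.mem_coe.2 (maps_Icc S hS Z hp K (Finset.mem_coe.1 hK))) (prod_inj S hS)
  rw [Nat.card_Icc, Nat.add_sub_cancel] at h1
  exact le_trans (by exact_mod_cast h1) (Nat.floor_le hZ)

lemma sum_sets (S : Finset (Finset ℕ)) (hS : ∀ K ∈ S, ∀ q ∈ K, q.Prime) (Z : ℝ) (hZ : 1 ≤ Z)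
    (hp : ∀ K ∈ S, ((∏ q ∈ K, q : ℕ) : ℝ) ≤ Z) :
    ∑ K ∈ S, (1 : ℝ) / ((∏ q ∈ K, q : ℕ) : ℝ) ≤ 1 + Real.log Z := by
  classical
  have h1 : ∑ K ∈ S, (1 : ℝ) / ((∏ q ∈ K, q : ℕ) : ℝ) =
      ∑ m ∈ S.image (fun K : Finset ℕ => ∏ q ∈ K, q), (1 : ℝ) / (m : ℝ) := by
    rw [Finset.sum_image]
    intro a ha b hb hab
    exact prod_inj S hS ha hb hab
  have h2 : S.image (fun K : Finset ℕ => ∏ q ∈ K, q) ⊆ Icc 1 ⌊Z⌋₊ := by
    intro m hm
    rw [Finset.mem_image] at hm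
    obtain ⟨K, hK, rfl⟩ := hm
    exact maps_Icc S hS Z hp K hK
  have h3 : ∑ m ∈ S.image (fun K : Finset ℕ => ∏ q ∈ K, q), (1 : ℝ) / (m : ℝ) ≤
      ∑ m ∈ Icc 1 ⌊Z⌋₊, (1 : ℝ) / (m : ℝ) :=
    Finset.sum_le_sum_of_subset_of_nonneg h2 (fun _ _ _ => by positivity)
  have h4 : ∑ m ∈ Icc 1 ⌊Z⌋₊, (1 : ℝ) / (m : ℝ) = ((harmonic ⌊Z⌋₊ : ℚ) : ℝ) := by
    rw [harmonic_eq_sum_Icc]
    push_cast
    refine Finset.sum_congr rfl fun m _ => ?_
    rw [one_div]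
  have h5 := harmonic_le_one_add_log ⌊Z⌋₊
  have h6 : Real.log (⌊Z⌋₊ : ℝ) ≤ Real.log Z := by
    apply Real.log_le_log
    · have : 1 ≤ ⌊Z⌋₊ := Nat.le_floor (by exact_mod_cast hZ)
      exact_mod_cast this
    · exact Nat.floor_le (by linarith)
  rw [h1]
  linarith

/-- counting by the known primes, constant bound for every set of known primes -/
lemma cnt (Z B : ℝ) (hZ : 0 ≤ Z) (hB : 0 ≤ B) (G : Finset (ℕ × ℕ)) (P : Finset ℕ → ℕ × ℕ → Prop)
    (h1 : ∀ v ∈ G, ∃ K : Finset ℕ, (∀ q ∈ K, q.Prime) ∧ ((∏ q ∈ K, q : ℕ) : ℝ) ≤ Z ∧ P K v)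
    (h2 : ∀ K : Finset ℕ, (∀ q ∈ K, q.Prime) → ((∏ q ∈ K, q : ℕ) : ℝ) ≤ Z →
      ∀ G' : Finset (ℕ × ℕ), G' ⊆ G → (∀ v ∈ G', P K v) → (G'.card : ℝ) ≤ B) :
    (G.card : ℝ) ≤ Z * B := by
  classical
  have hch : ∀ v, ∃ K : Finset ℕ, v ∈ G →
      (∀ q ∈ K, q.Prime) ∧ ((∏ q ∈ K, q : ℕ) : ℝ) ≤ Z ∧ P K v := by
    intro v
    by_cases hv : v ∈ G
    · obtain ⟨K, hK⟩ := h1 v hv
      exact ⟨K, fun _ => hK⟩
    · exact ⟨∅, fun h => absurd h hv⟩
  choose Kf hKf using hch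
  have e : G.card = ∑ K ∈ G.image Kf, (G.filter (fun v => Kf v = K)).card :=
    Finset.card_eq_sum_card_fiberwise (fun v hv => Finset.mem_coe.2
      (Finset.mem_image_of_mem _ (Finset.mem_coe.1 hv)))
  have hS : ∀ K ∈ G.image Kf, (∀ q ∈ K, q.Prime) ∧ ((∏ q ∈ K, q : ℕ) : ℝ) ≤ Z := by
    intro K hK
    rw [Finset.mem_image] at hK
    obtain ⟨v, hv, rfl⟩ := hK
    exact ⟨(hKf v hv).1, (hKf v hv).2.1⟩
  have hc := card_sets (G.image Kf) (fun K hK => (hS K hK).1) Z hZ (fun K hK => (hS K hK).2)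
  rw [e, Nat.cast_sum]
  calc ∑ K ∈ G.image Kf, ((G.filter (fun v => Kf v = K)).card : ℝ)
      ≤ ∑ _K ∈ G.image Kf, B := by
        refine Finset.sum_le_sum fun K hK => ?_
        refine h2 K (hS K hK).1 (hS K hK).2 _ (Finset.filter_subset _ _) ?_
        intro v hv
        rw [Finset.mem_filter] at hv
        have := (hKf v hv.1).2.2
        rwa [hv.2] at this
    _ = ((G.image Kf).card : ℝ) * B := by rw [Finset.sum_const, nsmul_eq_mul]
    _ ≤ Z * B := mul_le_mul_of_nonneg_right hc hB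

/-- counting by the known primes, weighted bound -/
lemma cntw (Z B : ℝ) (hZ : 1 ≤ Z) (hB : 0 ≤ B) (G : Finset (ℕ × ℕ))
    (P : Finset ℕ → ℕ × ℕ → Prop)
    (h1 : ∀ v ∈ G, ∃ K : Finset ℕ, (∀ q ∈ K, q.Prime) ∧ ((∏ q ∈ K, q : ℕ) : ℝ) ≤ Z ∧ P K v)
    (h2 : ∀ K : Finset ℕ, (∀ q ∈ K, q.Prime) → ((∏ q ∈ K, q : ℕ) : ℝ) ≤ Z →
      ∀ G' : Finset (ℕ × ℕ), G' ⊆ G → (∀ v ∈ G', P K v) →
        (G'.card : ℝ) ≤ B * (1 / ((∏ q ∈ K, q : ℕ) : ℝ))) :
    (G.card : ℝ) ≤ B * (1 + Real.log Z) := by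
  classical
  have hch : ∀ v, ∃ K : Finset ℕ, v ∈ G →
      (∀ q ∈ K, q.Prime) ∧ ((∏ q ∈ K, q : ℕ) : ℝ) ≤ Z ∧ P K v := by
    intro v
    by_cases hv : v ∈ G
    · obtain ⟨K, hK⟩ := h1 v hv
      exact ⟨K, fun _ => hK⟩
    · exact ⟨∅, fun h => absurd h hv⟩
  choose Kf hKf using hch
  have e : G.card = ∑ K ∈ G.image Kf, (G.filter (fun v => Kf v = K)).card :=
    Finset.card_eq_sum_card_fiberwise (fun v hv => Finset.mem_coe.2
      (Finset.mem_image_of_mem _ (Finset.mem_coe.1 hv)))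
  have hS : ∀ K ∈ G.image Kf, (∀ q ∈ K, q.Prime) ∧ ((∏ q ∈ K, q : ℕ) : ℝ) ≤ Z := by
    intro K hK
    rw [Finset.mem_image] at hK
    obtain ⟨v, hv, rfl⟩ := hK
    exact ⟨(hKf v hv).1, (hKf v hv).2.1⟩
  have hc := sum_sets (G.image Kf) (fun K hK => (hS K hK).1) Z hZ (fun K hK => (hS K hK).2)
  rw [e, Nat.cast_sum]
  calc ∑ K ∈ G.image Kf, ((G.filter (fun v => Kf v = K)).card : ℝ)
      ≤ ∑ K ∈ G.image Kf, B * (1 / ((∏ q ∈ K, q : ℕ) : ℝ)) := by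
        refine Finset.sum_le_sum fun K hK => ?_
        refine h2 K (hS K hK).1 (hS K hK).2 _ (Finset.filter_subset _ _) ?_
        intro v hv
        rw [Finset.mem_filter] at hv
        have := (hKf v hv.1).2.2
        rwa [hv.2] at this
    _ = B * ∑ K ∈ G.image Kf, 1 / ((∏ q ∈ K, q : ℕ) : ℝ) := by rw [Finset.mul_sum]
    _ ≤ B * (1 + Real.log Z) := mul_le_mul_of_nonneg_left hc hB

/-- splitting by the coordinate -/
lemma split3 (B : ℝ) (G : Finset (ℕ × ℕ)) (Q : Fin 3 → ℕ × ℕ → Prop)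
    (h1 : ∀ v ∈ G, ∃ i, Q i v)
    (h2 : ∀ i, ∀ G' : Finset (ℕ × ℕ), G' ⊆ G → (∀ v ∈ G', Q i v) → (G'.card : ℝ) ≤ B) :
    (G.card : ℝ) ≤ 3 * B := by
  classical
  have hch : ∀ v, ∃ i : Fin 3, v ∈ G → Q i v := by
    intro v
    by_cases hv : v ∈ G
    · obtain ⟨i, hi⟩ := h1 v hv
      exact ⟨i, fun _ => hi⟩
    · exact ⟨0, fun h => absurd h hv⟩
  choose f hf using hch
  have e : G.card = ∑ i : Fin 3, (G.filter (fun v => f v = i)).card :=
    Finset.card_eq_sum_card_fiberwise (fun v _ => Finset.mem_coe.2 (Finset.mem_univ _))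
  rw [e, Nat.cast_sum]
  calc ∑ i : Fin 3, ((G.filter (fun v => f v = i)).card : ℝ) ≤ ∑ _i : Fin 3, B := by
        refine Finset.sum_le_sum fun i _ => ?_
        refine h2 i _ (Finset.filter_subset _ _) ?_
        intro v hv
        rw [Finset.mem_filter] at hv
        have := hf v hv.1
        rwa [hv.2] at this
    _ = 3 * B := by rw [Finset.sum_const, nsmul_eq_mul]; simp

/-- splitting by a subset of the known primes -/
lemma splitT (Y B : ℝ) (hY : 0 ≤ Y) (hB : 0 ≤ B) (K : Finset ℕ) (hK : ∀ q ∈ K, q.Prime)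
    (G : Finset (ℕ × ℕ)) (Q : Finset ℕ → ℕ × ℕ → Prop)
    (h1 : ∀ v ∈ G, ∃ T ⊆ K, ((∏ q ∈ K, q : ℕ) : ℝ) * ((∏ q ∈ T, q : ℕ) : ℝ) ≤ Y ∧ Q T v)
    (h2 : ∀ T ⊆ K, ∀ G' : Finset (ℕ × ℕ), G' ⊆ G → (∀ v ∈ G', Q T v) →
      (G'.card : ℝ) ≤ ((∏ q ∈ T, q : ℕ) : ℝ) * B) :
    (G.card : ℝ) ≤ 2 ^ K.card * Y * B * (1 / ((∏ q ∈ K, q : ℕ) : ℝ)) := by
  classical
  have hch : ∀ v, ∃ T : Finset ℕ, v ∈ G →
      T ⊆ K ∧ ((∏ q ∈ K, q : ℕ) : ℝ) * ((∏ q ∈ T, q : ℕ) : ℝ) ≤ Y ∧ Q T v := by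
    intro v
    by_cases hv : v ∈ G
    · obtain ⟨T, h3, h4⟩ := h1 v hv
      exact ⟨T, fun _ => ⟨h3, h4⟩⟩
    · exact ⟨∅, fun h => absurd h hv⟩
  choose f hf using hch
  have hPK : (0 : ℝ) < ((∏ q ∈ K, q : ℕ) : ℝ) := by exact_mod_cast prod_prime_pos K hK
  have e : G.card = ∑ T ∈ G.image f, (G.filter (fun v => f v = T)).card :=
    Finset.card_eq_sum_card_fiberwise (fun v hv => Finset.mem_coe.2
      (Finset.mem_image_of_mem _ (Finset.mem_coe.1 hv)))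
  have hS : ∀ T ∈ G.image f, T ⊆ K ∧ ((∏ q ∈ T, q : ℕ) : ℝ) ≤
      Y * (1 / ((∏ q ∈ K, q : ℕ) : ℝ)) := by
    intro T hT
    rw [Finset.mem_image] at hT
    obtain ⟨v, hv, rfl⟩ := hT
    obtain ⟨h3, h4, -⟩ := hf v hv
    refine ⟨h3, ?_⟩
    rw [mul_one_div, le_div_iff₀ hPK]
    linarith
  have hcard : ((G.image f).card : ℝ) ≤ 2 ^ K.card := by
    have h3 : (G.image f).card ≤ K.powerset.card :=
      Finset.card_le_card fun T hT => Finset.mem_powerset.2 (hS T hT).1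
    rw [Finset.card_powerset] at h3
    exact_mod_cast h3
  rw [e, Nat.cast_sum]
  calc ∑ T ∈ G.image f, ((G.filter (fun v => f v = T)).card : ℝ)
      ≤ ∑ _T ∈ G.image f, Y * (1 / ((∏ q ∈ K, q : ℕ) : ℝ)) * B := by
        refine Finset.sum_le_sum fun T hT => ?_
        refine (h2 T (hS T hT).1 _ (Finset.filter_subset _ _) ?_).trans
          (mul_le_mul_of_nonneg_right (hS T hT).2 hB)
        intro v hv
        rw [Finset.mem_filter] at hv
        have := (hf v hv.1).2.2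
        rwa [hv.2] at this
    _ = ((G.image f).card : ℝ) * (Y * (1 / ((∏ q ∈ K, q : ℕ) : ℝ)) * B) := by
        rw [Finset.sum_const, nsmul_eq_mul]
    _ ≤ 2 ^ K.card * (Y * (1 / ((∏ q ∈ K, q : ℕ) : ℝ)) * B) :=
        mul_le_mul_of_nonneg_right hcard (by positivity)
    _ = _ := by ring

/-- four alternatives -/
lemma split4 (G : Finset (ℕ × ℕ)) (P1 P2 P3 P4 : ℕ × ℕ → Prop) (B1 B2 B3 B4 : ℝ)
    (h : ∀ v ∈ G, P1 v ∨ P2 v ∨ P3 v ∨ P4 v)
    (h1 : ∀ G' : Finset (ℕ × ℕ), G' ⊆ G → (∀ v ∈ G', P1 v) → (G'.card : ℝ) ≤ B1)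
    (h2 : ∀ G' : Finset (ℕ × ℕ), G' ⊆ G → (∀ v ∈ G', P2 v) → (G'.card : ℝ) ≤ B2)
    (h3 : ∀ G' : Finset (ℕ × ℕ), G' ⊆ G → (∀ v ∈ G', P3 v) → (G'.card : ℝ) ≤ B3)
    (h4 : ∀ G' : Finset (ℕ × ℕ), G' ⊆ G → (∀ v ∈ G', P4 v) → (G'.card : ℝ) ≤ B4) :
    (G.card : ℝ) ≤ B1 + B2 + B3 + B4 := by
  classical
  have hsub : G ⊆ ((G.filter P1 ∪ G.filter P2) ∪ G.filter P3) ∪ G.filter P4 := by
    intro v hv
    simp only [Finset.mem_union, Finset.mem_filter]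
    rcases h v hv with h' | h' | h' | h'
    · exact Or.inl (Or.inl (Or.inl ⟨hv, h'⟩))
    · exact Or.inl (Or.inl (Or.inr ⟨hv, h'⟩))
    · exact Or.inl (Or.inr ⟨hv, h'⟩)
    · exact Or.inr ⟨hv, h'⟩
  have e1 := Finset.card_le_card hsub
  have e2 := Finset.card_union_le ((G.filter P1 ∪ G.filter P2) ∪ G.filter P3) (G.filter P4)
  have e3 := Finset.card_union_le (G.filter P1 ∪ G.filter P2) (G.filter P3)
  have e4 := Finset.card_union_le (G.filter P1) (G.filter P2)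
  have e5 : (G.card : ℝ) ≤ ((G.filter P1).card : ℝ) + (G.filter P2).card + (G.filter P3).card +
      (G.filter P4).card := by
    have : G.card ≤ (G.filter P1).card + (G.filter P2).card + (G.filter P3).card +
      (G.filter P4).card := by omega
    exact_mod_cast this
  have f1 := h1 (G.filter P1) (Finset.filter_subset _ _) (fun v hv => (Finset.mem_filter.1 hv).2)
  have f2 := h2 (G.filter P2) (Finset.filter_subset _ _) (fun v hv => (Finset.mem_filter.1 hv).2)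
  have f3 := h3 (G.filter P3) (Finset.filter_subset _ _) (fun v hv => (Finset.mem_filter.1 hv).2)
  have f4 := h4 (G.filter P4) (Finset.filter_subset _ _) (fun v hv => (Finset.mem_filter.1 hv).2)
  linarith

end H22V

open H22V

theorem dyv_thm (hLP : S_LPF) (hNE : S_NEF) (hKN : S_KNV) (hGP : S_GPD) (hAL : S_ALL) :
    S_DYV := by
  classical
  obtain ⟨τ, κN, XN, hτ0, hτ1, hκN, hXN, hNEF⟩ := hNE (1 / 4) (1 / 60) (by norm_num)
    (by norm_num) (by norm_num)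
  obtain ⟨c0, η, hc0, hc01, hη0, hη1, hKNV⟩ := hKN (τ / 4) (by positivity) (by linarith)
  obtain ⟨lam, κ1, X1, hlam, hκ1, hX1, hLP1⟩ := hLP (η / 4) η (c0 / 4) (by positivity)
    (by linarith) hη0 hη1 (by positivity)
  obtain ⟨δ, hδ0, hδ1, hK⟩ := hKNV (lam / 2) (by positivity)
  obtain ⟨lam2, κ2, X2, hlam2, hκ2, hX2, hLP2⟩ := hLP δ η (c0 / 4) hδ0 hδ1 hη0 hη1 (by positivity)
  obtain ⟨Cd, hCd, hGd⟩ := hGP δ hδ0 hδ1
  obtain ⟨D, hD, hDp⟩ := pow_card_le Cd (c0 / 4) hCd (by positivity)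
  obtain ⟨D2, hD2, hD2p⟩ := pow_card_le 2 (1 / 100) (by norm_num) (by norm_num)
  obtain ⟨CA, hCA, hAll⟩ := hAL 1 one_pos
  obtain ⟨κ0, hκ0⟩ : ∃ κ0 : ℝ, κ0 = max (max κN κ1) (max κ2 (1 / δ)) := ⟨_, rfl⟩
  have k1 : κN ≤ κ0 := hκ0 ▸ (le_max_left _ _).trans (le_max_left _ _)
  have k2 : κ1 ≤ κ0 := hκ0 ▸ (le_max_right _ _).trans (le_max_left _ _)
  have k3 : κ2 ≤ κ0 := hκ0 ▸ (le_max_left _ _).trans (le_max_right _ _)
  have k4 : 1 / δ ≤ κ0 := hκ0 ▸ (le_max_right _ _).trans (le_max_right _ _)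
  obtain ⟨X0, hX0⟩ : ∃ X0 : ℝ, X0 = max XN (max X1 X2) := ⟨_, rfl⟩
  have x1 : XN ≤ X0 := hX0 ▸ le_max_left _ _
  have x2 : X1 ≤ X0 := hX0 ▸ (le_max_left _ _).trans (le_max_right _ _)
  have x3 : X2 ≤ X0 := hX0 ▸ (le_max_right _ _).trans (le_max_right _ _)
  have x4 : 3 ≤ X0 := hXN.trans x1
  refine ⟨c0 / 4, CA * X0 ^ 2 + (Cd * D + 3 + 3 + 303 * D2), κ0, τ / 12, by positivity,
    by linarith, ?_, by linarith, by positivity, by linarith, ?_⟩
  · have : 0 ≤ CA * X0 ^ 2 := by positivity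
    have : 0 ≤ Cd * D := by positivity
    linarith
  intro X h0 F hX hh0 hκ hF
  have hXpos : 0 < X := by linarith
  obtain ⟨W, hW⟩ : ∃ W : ℝ, W = X ^ (2 / 3 - c0 / 4) := ⟨_, rfl⟩
  have hW1 : 1 ≤ W := by rw [hW]; exact Real.one_le_rpow hX (by linarith)
  rw [← hW]
  have hmono : ∀ α : ℝ, α ≤ 2 / 3 - c0 / 4 → X ^ α ≤ W := by
    intro α h1
    rw [hW]
    exact Real.rpow_le_rpow_of_exponent_le hX h1
  have p0 : 0 ≤ CA * X0 ^ 2 * W := by positivity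
  have p1 : 0 ≤ (Cd * D + 3 + 3 + 303 * D2) * W := by positivity
  rcases lt_or_ge X X0 with hlt | hge
  · -- bounded X
    have h1 := hAll X X F hX hX (by
      intro v hv
      obtain ⟨a1, a2, -, -⟩ := hF v hv
      refine ⟨a1, a2, 0, ?_⟩
      have h6 : (rad (coord v 0) : ℝ) ≤ RR v := by exact_mod_cast rad_coord_le a1 0
      exact h6.trans a2)
    rw [Real.rpow_one, Real.sqrt_mul_self hXpos.le] at h1
    have h2 : CA * X * X ≤ CA * X0 ^ 2 := by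
      have h3 : X * X ≤ X0 ^ 2 := by rw [sq]; exact mul_self_le_mul_self hXpos.le hlt.le
      rw [mul_assoc]
      exact mul_le_mul_of_nonneg_left h3 (by linarith)
    have h3 : CA * X0 ^ 2 ≤ CA * X0 ^ 2 * W :=
      le_mul_of_one_le_right (by positivity) hW1
    calc (F.card : ℝ) ≤ CA * X0 ^ 2 * W := h1.trans (h2.trans h3)
      _ ≤ CA * X0 ^ 2 * W + (Cd * D + 3 + 3 + 303 * D2) * W := by linarith
      _ = (CA * X0 ^ 2 + (Cd * D + 3 + 3 + 303 * D2)) * W := by ring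
  · -- large X
    have hX3 : 3 ≤ X := x4.trans hge
    have hlog1 : 1 ≤ Real.log X := by
      rw [Real.le_log_iff_exp_le hXpos]
      have := Real.exp_one_lt_d9
      linarith
    have hκ0pos : 0 ≤ κ0 := by linarith
    have hκh : κ0 ≤ h0 := (le_mul_of_one_le_right hκ0pos hlog1).trans hκ
    have hlg : ∀ κ : ℝ, κ ≤ κ0 → κ * Real.log X ≤ h0 := by
      intro κ h1
      exact le_trans (mul_le_mul_of_nonneg_right h1 (by linarith)) hκ
    have hup2 : ∀ v ∈ F, hh v ≤ 2 * h0 := by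
      intro v hv
      have h1 := (hF v hv).2.2.2
      have h2 : (1 + τ / 12) * h0 ≤ 2 * h0 := mul_le_mul_of_nonneg_right (by linarith) hh0.le
      linarith
    have hpf : ∀ (v : ℕ × ℕ) (K : Finset ℕ), K ⊆ (nn v).primeFactors → ∀ q ∈ K, q.Prime :=
      fun v K h1 q hq => Nat.prime_of_mem_primeFactors (h1 hq)
    obtain ⟨Z, hZ⟩ : ∃ Z : ℝ, Z = X ^ (2 / 3 - c0) := ⟨_, rfl⟩
    have hZ0 : 0 ≤ Z := by rw [hZ]; positivity
    have hZX : Z ≤ X := by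
      rw [hZ]
      calc X ^ (2 / 3 - c0) ≤ X ^ (1 : ℝ) := Real.rpow_le_rpow_of_exponent_le hX (by linarith)
        _ = X := Real.rpow_one X
    have hZc : Z * X ^ (c0 / 4) ≤ W := by
      rw [hZ, ← Real.rpow_add hXpos]
      exact hmono _ (by linarith)
    obtain ⟨Y, hY⟩ : ∃ Y : ℝ, Y = X ^ (3 / 5 : ℝ) := ⟨_, rfl⟩
    have hY1 : 1 ≤ Y := by rw [hY]; exact Real.one_le_rpow hX (by norm_num)
    have hYX : Y ≤ X := by
      rw [hY]
      calc X ^ (3 / 5 : ℝ) ≤ X ^ (1 : ℝ) :=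
            Real.rpow_le_rpow_of_exponent_le hX (by norm_num)
        _ = X := Real.rpow_one X
    -- the four options
    have hopt : ∀ v ∈ F,
        (∃ K : Finset ℕ, (∀ q ∈ K, q.Prime) ∧ ((∏ q ∈ K, q : ℕ) : ℝ) ≤ Z ∧
          (2 + δ) * hh v ≤ mass K v) ∨
        (∃ K : Finset ℕ, (∀ q ∈ K, q.Prime) ∧ ((∏ q ∈ K, q : ℕ) : ℝ) ≤ Z ∧
          ∃ i, Fam X h0 δ η lam2 K i v) ∨
        (∃ K : Finset ℕ, (∀ q ∈ K, q.Prime) ∧ ((∏ q ∈ K, q : ℕ) : ℝ) ≤ Z ∧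
          ∃ i, Fam X h0 (η / 4) η lam K i v) ∨
        (∃ K : Finset ℕ, (∀ q ∈ K, q.Prime) ∧ ((∏ q ∈ K, q : ℕ) : ℝ) ≤ Y ∧
          ∃ T ⊆ K, ((∏ q ∈ K, q : ℕ) : ℝ) * ((∏ q ∈ T, q : ℕ) : ℝ) ≤ Y ∧
            ∃ i, FamN X h0 (1 / 4) τ K T i v) := by
      intro v hv
      obtain ⟨a1, a2, a3, a4⟩ := hF v hv
      have a5 := hup2 v hv
      have a6 : 1 / δ ≤ hh v := by linarith
      obtain ⟨K, hKs, hKo⟩ := hK X v hX3 a1 a2 a6
      have hhp : 0 < hh v := by linarith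
      rw [← hZ, ← hY] at hKo
      rcases hKo with ⟨b1, b2⟩ | ⟨b1, i, b2, b3⟩ | ⟨b1, i, b2, b3⟩ | ⟨i, T, b0, b1, b2, b3⟩
      · exact Or.inl ⟨K, hpf v K hKs, b1, b2⟩
      · refine Or.inr (Or.inl ⟨K, hpf v K hKs, b1, i, ⟨a1, a2, a3, a5, hKs, ?_, ?_⟩⟩)
        · exact le_trans (mul_le_mul_of_nonneg_left a3 hδ0.le) b2
        · exact b3.trans (by positivity)
      · refine Or.inr (Or.inr (Or.inl ⟨K, hpf v K hKs, b1, i, ⟨a1, a2, a3, a5, hKs, ?_, ?_⟩⟩))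
        · exact le_trans (mul_le_mul_of_nonneg_left a3 (by positivity)) b2
        · refine b3.trans ?_
          have h1 : lam / 2 * hh v ≤ lam / 2 * (2 * h0) :=
            mul_le_mul_of_nonneg_left a5 (by positivity)
          linarith
      · refine Or.inr (Or.inr (Or.inr ⟨K, hpf v K hKs, ?_, T, b0, b1, i,
          ⟨a1, a2, a3, a5, hKs, ?_, ?_⟩⟩))
        · have hT1 : (1 : ℝ) ≤ ((∏ q ∈ T, q : ℕ) : ℝ) := by
            exact_mod_cast prod_prime_pos T (fun q hq => hpf v K hKs q (b0 hq))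
          have hK0 : (0 : ℝ) ≤ ((∏ q ∈ K, q : ℕ) : ℝ) := Nat.cast_nonneg _
          exact (le_mul_of_one_le_right hK0 hT1).trans b1
        · exact le_trans (mul_le_mul_of_nonneg_left a3 (by norm_num)) b2
        · intro s hs q hq hqK
          have h1 := b3 s hs q hq hqK
          have h2 : |3 * hh v - 3 * h0| ≤ τ / 4 * h0 := by
            rw [abs_of_nonneg (by linarith)]
            have h7 : (1 + τ / 12) * h0 = h0 + τ * h0 / 12 := by ring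
            linarith
          have h3 : τ / 4 * hh v ≤ τ / 4 * (2 * h0) :=
            mul_le_mul_of_nonneg_left a5 (by positivity)
          have h6 : 0 ≤ τ * h0 := by positivity
          have h4 := abs_add_le (((coord v s).factorization q : ℝ) * Real.log X - 3 * hh v)
            (3 * hh v - 3 * h0)
          have h5 : ((coord v s).factorization q : ℝ) * Real.log X - 3 * hh v +
            (3 * hh v - 3 * h0) = ((coord v s).factorization q : ℝ) * Real.log X - 3 * h0 := by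
            ring
          rw [h5] at h4
          linarith
    have main := split4 F _ _ _ _ (Cd * D * W) (3 * W) (3 * W) (303 * D2 * W) hopt ?_ ?_ ?_ ?_
    · calc (F.card : ℝ) ≤ Cd * D * W + 3 * W + 3 * W + 303 * D2 * W := main
        _ = (Cd * D + 3 + 3 + 303 * D2) * W := by ring
        _ ≤ CA * X0 ^ 2 * W + (Cd * D + 3 + 3 + 303 * D2) * W := by linarith
        _ = (CA * X0 ^ 2 + (Cd * D + 3 + 3 + 303 * D2)) * W := by ring
    · -- option 1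
      intro G hGF hG
      have h1 := cnt Z (Cd * (D * X ^ (c0 / 4))) hZ0 (by positivity) G
        (fun K v => (2 + δ) * hh v ≤ mass K v) hG (by
          intro K hKp hKZ G' hG' hP
          refine (hGd h0 K G' hh0 hKp (fun v hv => ?_)).trans ?_
          · obtain ⟨a1, a2, a3, a4⟩ := hF v (hGF (hG' hv))
            exact ⟨a1, a3, hup2 v (hGF (hG' hv)), hP v hv⟩
          · have h2 := hDp K hKp
            have h3 : ((∏ q ∈ K, q : ℕ) : ℝ) ^ (c0 / 4) ≤ X ^ (c0 / 4) :=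
              Real.rpow_le_rpow (Nat.cast_nonneg _) (hKZ.trans hZX) (by positivity)
            rw [pow_succ, mul_comm]
            refine mul_le_mul_of_nonneg_left (h2.trans ?_) (by linarith)
            exact mul_le_mul_of_nonneg_left h3 (by linarith))
      refine h1.trans ?_
      calc Z * (Cd * (D * X ^ (c0 / 4))) = Cd * D * (Z * X ^ (c0 / 4)) := by ring
        _ ≤ Cd * D * W := mul_le_mul_of_nonneg_left hZc (by positivity)
    · -- option 2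
      intro G hGF hG
      have h1 := cnt Z (3 * X ^ (c0 / 4)) hZ0 (by positivity) G
        (fun K v => ∃ i, Fam X h0 δ η lam2 K i v) hG (by
          intro K hKp hKZ G' hG' hP
          refine split3 (X ^ (c0 / 4)) G' (fun i v => Fam X h0 δ η lam2 K i v) hP ?_
          intro i G'' hG'' hP'
          exact hLP2 X h0 K i G'' (x3.trans hge) (hlg κ2 k3) hP')
      refine h1.trans ?_
      calc Z * (3 * X ^ (c0 / 4)) = 3 * (Z * X ^ (c0 / 4)) := by ring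
        _ ≤ 3 * W := mul_le_mul_of_nonneg_left hZc (by norm_num)
    · -- option 3
      intro G hGF hG
      have h1 := cnt Z (3 * X ^ (c0 / 4)) hZ0 (by positivity) G
        (fun K v => ∃ i, Fam X h0 (η / 4) η lam K i v) hG (by
          intro K hKp hKZ G' hG' hP
          refine split3 (X ^ (c0 / 4)) G' (fun i v => Fam X h0 (η / 4) η lam K i v) hP ?_
          intro i G'' hG'' hP'
          exact hLP1 X h0 K i G'' (x2.trans hge) (hlg κ1 k2) hP')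
      refine h1.trans ?_
      calc Z * (3 * X ^ (c0 / 4)) = 3 * (Z * X ^ (c0 / 4)) := by ring
        _ ≤ 3 * W := mul_le_mul_of_nonneg_left hZc (by norm_num)
    · -- option 4
      intro G hGF hG
      have h1 := cntw Y (D2 * X ^ (1 / 100 : ℝ) * Y * (3 * X ^ (1 / 60 : ℝ))) hY1
        (by positivity) G
        (fun K v => ∃ T ⊆ K, ((∏ q ∈ K, q : ℕ) : ℝ) * ((∏ q ∈ T, q : ℕ) : ℝ) ≤ Y ∧
            ∃ i, FamN X h0 (1 / 4) τ K T i v) hG (by
          intro K hKp hKY G' hG' hP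
          have h2 := splitT Y (3 * X ^ (1 / 60 : ℝ)) (by linarith) (by positivity) K hKp G'
            (fun T v => ∃ i, FamN X h0 (1 / 4) τ K T i v) hP (by
              intro T hT G'' hG'' hP'
              have h3 := split3 (((∏ q ∈ T, q : ℕ) : ℝ) * X ^ (1 / 60 : ℝ)) G''
                (fun i v => FamN X h0 (1 / 4) τ K T i v) hP' (by
                  intro i G3 hG3 hP3
                  exact hNEF X h0 K T i G3 hT (x1.trans hge) (hlg κN k1) hP3)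
              refine h3.trans (le_of_eq ?_)
              ring)
          refine h2.trans ?_
          have h3 : (2 : ℝ) ^ K.card ≤ D2 * X ^ (1 / 100 : ℝ) := by
            refine (hD2p K hKp).trans ?_
            refine mul_le_mul_of_nonneg_left ?_ (by linarith)
            exact Real.rpow_le_rpow (Nat.cast_nonneg _) (hKY.trans hYX) (by norm_num)
          have h4 : 0 ≤ Y * (3 * X ^ (1 / 60 : ℝ)) * (1 / ((∏ q ∈ K, q : ℕ) : ℝ)) := by
            positivity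
          calc 2 ^ K.card * Y * (3 * X ^ (1 / 60 : ℝ)) * (1 / ((∏ q ∈ K, q : ℕ) : ℝ))
              = 2 ^ K.card * (Y * (3 * X ^ (1 / 60 : ℝ)) * (1 / ((∏ q ∈ K, q : ℕ) : ℝ))) := by
                ring
            _ ≤ (D2 * X ^ (1 / 100 : ℝ)) *
                (Y * (3 * X ^ (1 / 60 : ℝ)) * (1 / ((∏ q ∈ K, q : ℕ) : ℝ))) :=
                mul_le_mul_of_nonneg_right h3 h4
            _ = _ := by ring)
      refine h1.trans ?_
      have h2 : 1 + Real.log Y ≤ 101 * X ^ (1 / 100 : ℝ) := by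
        have h3 : Real.log Y ≤ Real.log X := Real.log_le_log (by linarith) hYX
        have h4 : Real.log X ≤ X ^ (1 / 100 : ℝ) / (1 / 100) :=
          Real.log_le_rpow_div hXpos.le (by norm_num)
        have h5 : 1 ≤ X ^ (1 / 100 : ℝ) := Real.one_le_rpow hX (by norm_num)
        have h6 : X ^ (1 / 100 : ℝ) / (1 / 100) = 100 * X ^ (1 / 100 : ℝ) := by ring
        linarith
      have hB0 : 0 ≤ D2 * X ^ (1 / 100 : ℝ) * Y * (3 * X ^ (1 / 60 : ℝ)) := by positivity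
      calc D2 * X ^ (1 / 100 : ℝ) * Y * (3 * X ^ (1 / 60 : ℝ)) * (1 + Real.log Y)
          ≤ D2 * X ^ (1 / 100 : ℝ) * Y * (3 * X ^ (1 / 60 : ℝ)) * (101 * X ^ (1 / 100 : ℝ)) :=
            mul_le_mul_of_nonneg_left h2 hB0
        _ = 303 * D2 * (((X ^ (1 / 100 : ℝ) * X ^ (3 / 5 : ℝ)) * X ^ (1 / 60 : ℝ)) *
            X ^ (1 / 100 : ℝ)) := by rw [hY]; ring
        _ ≤ 303 * D2 * W := by
            rw [← Real.rpow_add hXpos, ← Real.rpow_add hXpos, ← Real.rpow_add hXpos]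
            refine mul_le_mul_of_nonneg_left (hmono _ ?_) (by positivity)
            linarith

end Pool.VIO
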